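import Mathlib
import Pool.Agent.H78.PB.Stm
import Pool.Agent.N892.BW.CELL
import Pool.Agent.N892.BW.AVG
import Pool.Agent.N892.BW.LIN

/-!
Project PB: the bound for one cell (real exponent).
-/

set_option autoImplicit false

open MeasureTheory ENNReal Filter Topology Complex
open scoped ComplexConjugate

namespace Pool.Agent.H1PB.CELL

open Pool.Agent.N892.BW Pool.Agent.H78.PB
open Pool.Agent.N892.BW.CELL (NN meas_in mink norm_Kn ker_nonneg norm_ex meas_Kn meas_kk norm_kk_le meas_ex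
  meas_hat meas_iv meas_So nice_int cut_B cut_lip err_pt err_zero err_int err_size)

theorem qr_facts (m : ℝ) (hm : Rg m) : 1 < qr m ∧ qr m ≤ 2 ∧ (qr m).HolderConjugate (2 * m) := by
  obtain ⟨h1, -⟩ := hm
  unfold qr
  have h2 : 0 < 2 * m - 1 := by linarith
  have h3 : 1 < 2 * m / (2 * m - 1) := by
    rw [lt_div_iff₀ h2]
    linarith
  refine ⟨h3, ?_, ?_⟩
  · rw [div_le_iff₀ h2]
    linarith
  · rw [Real.holderConjugate_iff]
    refine ⟨h3, ?_⟩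
    field_simp
    ring

theorem Ar_nonneg (m G : ℝ) (n : ℕ) (hG : 0 < G) : 0 ≤ Ar m G n := by
  unfold Ar
  positivity

/-- the main part -/
theorem hl (h1 : R_MZC) (m G : ℝ) (n : ℕ) (hm : Rg m) (hG : 0 < G) (hP : Pit m G) (hn : 1 ≤ n) (ε η : ℝ) (hε : 0 < ε)
    (hav : ∀ (c l T D : ℝ), 0 < c → 0 < l → l ≤ η →
      1 ≤ D → 0 < T → T * D ≤ η * c → c * l ≤ η * T → ∀ χ : ℂ → ℝ≥0∞, Mol l χ →
      ∀ s : ℝ, 1 / 2 ≤ s → s ≤ 1 → ∀ X : ℂ → ℝ≥0∞, Measurable X →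
      ∫⁻ w in {w : ℂ | 1 / 2 ≤ ‖w‖ ∧ ‖w‖ ≤ D},
          (∫⁻ y, χ y * (ENNReal.ofReal ((c / (2 * Real.pi * ‖w + y‖ ^ 2)) ^ 2) *
            X ((c : ℂ) / conj (w + y)))) ^ s ≤
        ENNReal.ofReal (1 + ε) * ∫⁻ w, (ENNReal.ofReal ((c / (2 * Real.pi * ‖w‖ ^ 2)) ^ 2) *
          av (T + 8 * c * l) X ((c : ℂ) / conj w)) ^ s)
    (B l T D : ℝ) (ψ : ℂ → ℝ) (χ : ℂ → ℝ≥0∞) (g : ℂ → ℂ) (hl0 : 0 < l) (hl : l ≤ η) (hl2 : l ≤ 1 / 8)
    (hD : 1 ≤ D) (hT : 0 < T) (hTD : T * D ≤ η * n) (hnl : (n : ℝ) * l ≤ η / 2 * T)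
    (hψ : Cut B 1 D ψ) (hχ : Mol l χ) (hg : Nice g) :
    NN χ (qr m) (fun w => kk n ψ w * hat g (iv n w)) ≤
      ENNReal.ofReal ((1 + ε) * Ar m G n) * (∫⁻ z, ‖g z‖ₑ ^ (qr m)) ^ (1 / qr m) := by
  obtain ⟨q1, q2, -⟩ := qr_facts m hm
  have hn' : (1 : ℝ) ≤ n := by exact_mod_cast hn
  have hpi := Real.pi_pos
  have hX : Measurable fun v => ‖hat g v‖ₑ ^ 2 := (meas_hat g hg.1).enorm.pow_const 2
  have key := hav (2 * n) l T (2 * D) (by positivity) hl0 hl (by linarith) hT (by linarith) (by linarith)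
    χ hχ (qr m / 2) (by linarith) (by linarith) (fun v => ‖hat g v‖ₑ ^ 2) hX
  have key2 := h1 m G hm hG hP n hn (T + 8 * (2 * n) * l) (by positivity) g hg
  have e1 : ∀ w : ℂ, (2 * (n : ℝ)) / (2 * Real.pi * ‖w‖ ^ 2) = ker n w := by
    intro w
    unfold Pool.Agent.N892.BW.ker
    rw [mul_assoc 2 Real.pi, mul_div_mul_left _ _ (by norm_num : (2 : ℝ) ≠ 0)]
  have e2 : ∀ w : ℂ, ((2 * (n : ℝ) : ℝ) : ℂ) / conj w = iv n w := by
    intro w
    unfold iv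
    push_cast
    rfl
  simp only [e1, e2] at key
  have hS : MeasurableSet {w : ℂ | 1 / 2 ≤ ‖w‖ ∧ ‖w‖ ≤ 2 * D} :=
    (measurableSet_le measurable_const measurable_norm).inter (measurableSet_le measurable_norm measurable_const)
  have main : ∫⁻ w, (∫⁻ y, χ y * ‖kk n ψ (w + y) * hat g (iv n (w + y))‖ₑ ^ 2) ^ (qr m / 2) ≤
      ∫⁻ w in {w : ℂ | 1 / 2 ≤ ‖w‖ ∧ ‖w‖ ≤ 2 * D},
        (∫⁻ y, χ y * (ENNReal.ofReal (ker n (w + y) ^ 2) * ‖hat g (iv n (w + y))‖ₑ ^ 2)) ^ (qr m / 2) := by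
    rw [← lintegral_indicator hS]
    refine lintegral_mono fun w => ?_
    by_cases hw : w ∈ {w : ℂ | 1 / 2 ≤ ‖w‖ ∧ ‖w‖ ≤ 2 * D}
    · rw [Set.indicator_of_mem hw]
      refine ENNReal.rpow_le_rpow (lintegral_mono fun y => ?_) (by linarith)
      have h3 : ‖kk n ψ (w + y)‖ₑ ≤ ENNReal.ofReal (ker n (w + y)) := by
        rw [← ofReal_norm]
        exact ENNReal.ofReal_le_ofReal (norm_kk_le n hn ψ hψ.2.1 _)
      rw [enorm_mul, mul_pow, ENNReal.ofReal_pow (ker_nonneg _ _)]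
      gcongr
    · rw [Set.indicator_of_notMem hw]
      have h3 : ∀ y, χ y * ‖kk n ψ (w + y) * hat g (iv n (w + y))‖ₑ ^ 2 = 0 := by
        intro y
        by_cases hy : l < ‖y‖
        · rw [hχ.2.1 y hy, zero_mul]
        · have h4 : ψ (w + y) = 0 := by
            by_contra h5
            obtain ⟨h6, h7⟩ := hψ.2.2.1 _ h5
            apply hw
            have h8 : ‖w + y‖ ≤ ‖w‖ + ‖y‖ := norm_add_le _ _
            have h9 : ‖w‖ ≤ ‖w + y‖ + ‖y‖ := by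
              calc ‖w‖ = ‖(w + y) - y‖ := by rw [add_sub_cancel_right]
                _ ≤ _ := norm_sub_le _ _
            exact ⟨by linarith, by linarith⟩
          rw [kk, h4]
          simp
      simp only [h3, lintegral_zero]
      rw [ENNReal.zero_rpow_of_pos (by linarith)]
  have tot : ∫⁻ w, (∫⁻ y, χ y * ‖kk n ψ (w + y) * hat g (iv n (w + y))‖ₑ ^ 2) ^ (qr m / 2) ≤
      ENNReal.ofReal (1 + ε) * (ENNReal.ofReal (Ar m G n ^ (qr m)) * ∫⁻ x, ‖g x‖ₑ ^ (qr m)) :=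
    main.trans (key.trans (by gcongr))
  unfold NN
  have hA := Ar_nonneg m G n hG
  calc (∫⁻ w, (∫⁻ y, χ y * ‖kk n ψ (w + y) * hat g (iv n (w + y))‖ₑ ^ 2) ^ (qr m / 2)) ^ (1 / qr m)
      ≤ (ENNReal.ofReal (1 + ε) * (ENNReal.ofReal (Ar m G n ^ (qr m)) * ∫⁻ x, ‖g x‖ₑ ^ (qr m))) ^ (1 / qr m) :=
        ENNReal.rpow_le_rpow tot (by positivity)
    _ = ENNReal.ofReal (1 + ε) ^ (1 / qr m) * (ENNReal.ofReal (Ar m G n) *
          (∫⁻ x, ‖g x‖ₑ ^ (qr m)) ^ (1 / qr m)) := by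
        have hpow : ENNReal.ofReal (Ar m G n ^ (qr m)) ^ (1 / qr m) = ENNReal.ofReal (Ar m G n) := by
          rw [ENNReal.ofReal_rpow_of_nonneg (by positivity) (by positivity), ← Real.rpow_mul hA,
            mul_one_div_cancel (by linarith), Real.rpow_one]
        rw [ENNReal.mul_rpow_of_nonneg _ _ (by positivity), ENNReal.mul_rpow_of_nonneg _ _ (by positivity),
          hpow]
    _ ≤ ENNReal.ofReal (1 + ε) ^ (1 : ℝ) * (ENNReal.ofReal (Ar m G n) *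
          (∫⁻ x, ‖g x‖ₑ ^ (qr m)) ^ (1 / qr m)) := by
        gcongr
        · rw [← ENNReal.ofReal_one]
          exact ENNReal.ofReal_le_ofReal (by linarith)
        · rw [div_le_one (by linarith)]
          exact q1.le
    _ = _ := by
        rw [ENNReal.rpow_one, ← mul_assoc, ← ENNReal.ofReal_mul (by linarith)]


/-- the norm of the error -/
theorem he (h3 : S_LIN) (m : ℝ) (n : ℕ) (hm : Rg m) (hn : 1 ≤ n) (R l B D : ℝ) (hR : 0 < R) (hR2 : R ≤ 1 / 8)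
    (hl : l ≤ 1 / 8)
    (hnR : (n : ℝ) * R ^ 2 ≤ 1 / 4) (ψ : ℂ → ℝ) (hψ : Cut B 1 D ψ) (χ : ℂ → ℝ≥0∞) (hχ : Mol l χ)
    (g : ℂ → ℂ) (hg : Nice g) (hgR : ∀ z, g z ≠ 0 → ‖z‖ ≤ R) :
    NN χ (qr m) (fun w => So n ψ g w - kk n ψ w * hat g (iv n w)) ≤
      ENNReal.ofReal (6 * (200 + B) * (n / Real.pi) * (R + n * R ^ 2)) * (∫⁻ z, ‖g z‖ₑ) *
        (∫⁻ w : ℂ, ENNReal.ofReal ((1 + ‖w‖) ^ (-2 : ℝ)) ^ (qr m)) ^ (1 / qr m) := by
  obtain ⟨q1, q2, -⟩ := qr_facts m hm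
  set M : ℝ≥0∞ := ENNReal.ofReal (6 * (200 + B) * (n / Real.pi) * (R + n * R ^ 2)) * (∫⁻ z, ‖g z‖ₑ)
    with hM
  unfold NN
  have hpt : ∀ w, (∫⁻ y, χ y * ‖So n ψ g (w + y) - kk n ψ (w + y) * hat g (iv n (w + y))‖ₑ ^ 2) ^
      (qr m / 2) ≤ M ^ (qr m) * ENNReal.ofReal ((1 + ‖w‖) ^ (-2 : ℝ)) ^ (qr m) := by
    intro w
    have h1 : ∫⁻ y, χ y * ‖So n ψ g (w + y) - kk n ψ (w + y) * hat g (iv n (w + y))‖ₑ ^ 2 ≤
        (M * ENNReal.ofReal ((1 + ‖w‖) ^ (-2 : ℝ))) ^ 2 := by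
      calc ∫⁻ y, χ y * ‖So n ψ g (w + y) - kk n ψ (w + y) * hat g (iv n (w + y))‖ₑ ^ 2
          ≤ ∫⁻ y, χ y * (M * ENNReal.ofReal ((1 + ‖w‖) ^ (-2 : ℝ))) ^ 2 := by
            refine lintegral_mono fun y => ?_
            rcases lt_or_ge l ‖y‖ with hy | hy
            · rw [hχ.2.1 y hy, zero_mul, zero_mul]
            · have := err_size h3 n hn R B D hR hR2 hnR ψ hψ g hg hgR w y (by linarith)
              gcongr
        _ = (M * ENNReal.ofReal ((1 + ‖w‖) ^ (-2 : ℝ))) ^ 2 := by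
            rw [lintegral_mul_const _ hχ.1, hχ.2.2, one_mul]
    refine (ENNReal.rpow_le_rpow h1 (by linarith)).trans (le_of_eq ?_)
    rw [← ENNReal.rpow_two, ← ENNReal.rpow_mul, mul_div_cancel₀ _ (by norm_num : (2 : ℝ) ≠ 0),
      ENNReal.mul_rpow_of_nonneg _ _ (by linarith)]
  refine (ENNReal.rpow_le_rpow (lintegral_mono hpt) (by positivity)).trans ?_
  have hme : Measurable fun w : ℂ => ENNReal.ofReal ((1 + ‖w‖) ^ (-2 : ℝ)) ^ (qr m) := by fun_prop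
  rw [lintegral_const_mul _ hme, ENNReal.mul_rpow_of_nonneg _ _ (by positivity), ← ENNReal.rpow_mul,
    mul_one_div_cancel (by linarith), ENNReal.rpow_one]

theorem Iq_fin (m : ℝ) (hm : Rg m) :
    ∫⁻ w : ℂ, ENNReal.ofReal ((1 + ‖w‖) ^ (-2 : ℝ)) ^ (qr m) < ∞ := by
  obtain ⟨q1, q2, -⟩ := qr_facts m hm
  have h1 : Integrable (fun w : ℂ => (1 + ‖w‖) ^ (-(2 * qr m))) := by
    apply integrable_one_add_norm
    rw [Complex.finrank_real_complex]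
    push_cast
    linarith
  have h2 : ∀ w : ℂ, ENNReal.ofReal ((1 + ‖w‖) ^ (-2 : ℝ)) ^ (qr m) =
      ENNReal.ofReal ((1 + ‖w‖) ^ (-(2 * qr m))) := by
    intro w
    rw [ENNReal.ofReal_rpow_of_nonneg (by positivity) (by linarith), ← Real.rpow_mul (by positivity)]
    congr 2
    ring
  simp only [h2]
  exact h1.lintegral_lt_top

/-- Hoelder -/
theorem hoe (m : ℝ) (hm : Rg m) (R : ℝ) (hR : 0 < R) (g : ℂ → ℂ) (hg : Nice g)
    (hgR : ∀ z, g z ≠ 0 → ‖z‖ ≤ R) :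
    ∫⁻ z, ‖g z‖ₑ ≤ (∫⁻ z, ‖g z‖ₑ ^ (qr m)) ^ (1 / qr m) *
      ENNReal.ofReal (Real.pi ^ (1 / (2 * m)) * R ^ (1 / m)) := by
  obtain ⟨q1, q2, hq⟩ := qr_facts m hm
  have hpi := Real.pi_pos
  have hm' : 0 < m := by linarith [hm.1]
  have h1 := ENNReal.lintegral_mul_le_Lp_mul_Lq volume hq hg.1.enorm.aemeasurable
    (measurable_const.indicator (Metric.isClosed_closedBall (x := (0 : ℂ)) (ε := R)).measurableSet
      : Measurable ((Metric.closedBall (0 : ℂ) R).indicator fun _ => (1 : ℝ≥0∞))).aemeasurable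
  have e1 : ∫⁻ a, ((fun z => ‖g z‖ₑ) * (Metric.closedBall (0 : ℂ) R).indicator fun _ => (1 : ℝ≥0∞)) a =
      ∫⁻ z, ‖g z‖ₑ := by
    refine lintegral_congr fun z => ?_
    rw [Pi.mul_apply]
    by_cases hz : g z = 0
    · rw [hz]
      simp
    · rw [Set.indicator_of_mem, mul_one]
      rw [Metric.mem_closedBall, dist_zero_right]
      exact hgR z hz
  have e2 : ∫⁻ a, ((Metric.closedBall (0 : ℂ) R).indicator (fun _ => (1 : ℝ≥0∞)) a) ^ (2 * m) =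
      ENNReal.ofReal (Real.pi * R ^ 2) := by
    have : ∀ a, ((Metric.closedBall (0 : ℂ) R).indicator (fun _ => (1 : ℝ≥0∞)) a) ^ (2 * m) =
        (Metric.closedBall (0 : ℂ) R).indicator (fun _ => (1 : ℝ≥0∞)) a := by
      intro a
      by_cases ha : a ∈ Metric.closedBall (0 : ℂ) R
      · rw [Set.indicator_of_mem ha, ENNReal.one_rpow]
      · rw [Set.indicator_of_notMem ha, ENNReal.zero_rpow_of_pos (by positivity)]
    simp only [this]
    rw [lintegral_indicator (Metric.isClosed_closedBall).measurableSet, setLIntegral_one,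
      Complex.volume_closedBall, mul_comm, ENNReal.ofReal_mul hpi.le, ENNReal.ofReal_pow hR.le]
    congr 1
    rw [← ENNReal.ofReal_coe_nnreal, NNReal.coe_real_pi]
  have e3 : ENNReal.ofReal (Real.pi * R ^ 2) ^ (1 / (2 * m)) =
      ENNReal.ofReal (Real.pi ^ (1 / (2 * m)) * R ^ (1 / m)) := by
    rw [ENNReal.ofReal_rpow_of_nonneg (by positivity) (by positivity),
      Real.mul_rpow hpi.le (by positivity), ← Real.rpow_natCast R 2, ← Real.rpow_mul hR.le]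
    congr 3
    push_cast
    field_simp
  rw [e1, e2, e3] at h1
  exact h1

/-! ### The theorem -/

/-- the constant -/
noncomputable def CC (m B : ℝ) : ℝ :=
  6 * (200 + |B|) / Real.pi *
    ((∫⁻ w : ℂ, ENNReal.ofReal ((1 + ‖w‖) ^ (-2 : ℝ)) ^ (qr m)) ^ (1 / qr m)).toReal *
    Real.pi ^ (1 / (2 * m)) + 1

theorem CC_pos (m B : ℝ) : 0 < CC m B := by
  unfold CC
  have := Real.pi_pos
  positivity

/-- the case `a = 0` -/
theorem cell0 (h1 : R_MZC) (h3 : S_LIN) (m G : ℝ) (n : ℕ) (hm : Rg m) (hG : 0 < G) (hP : Pit m G) (hn : 1 ≤ n) (ε η : ℝ) (hε : 0 < ε)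
    (hav : ∀ (c l T D : ℝ), 0 < c → 0 < l → l ≤ η →
      1 ≤ D → 0 < T → T * D ≤ η * c → c * l ≤ η * T → ∀ χ : ℂ → ℝ≥0∞, Mol l χ →
      ∀ s : ℝ, 1 / 2 ≤ s → s ≤ 1 → ∀ X : ℂ → ℝ≥0∞, Measurable X →
      ∫⁻ w in {w : ℂ | 1 / 2 ≤ ‖w‖ ∧ ‖w‖ ≤ D},
          (∫⁻ y, χ y * (ENNReal.ofReal ((c / (2 * Real.pi * ‖w + y‖ ^ 2)) ^ 2) *
            X ((c : ℂ) / conj (w + y)))) ^ s ≤
        ENNReal.ofReal (1 + ε) * ∫⁻ w, (ENNReal.ofReal ((c / (2 * Real.pi * ‖w‖ ^ 2)) ^ 2) *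
          av (T + 8 * c * l) X ((c : ℂ) / conj w)) ^ s)
    (B R l T D : ℝ) (ψ : ℂ → ℝ) (χ : ℂ → ℝ≥0∞) (g : ℂ → ℂ) (hR : 0 < R) (hR2 : R ≤ 1 / 8)
    (hnR : (n : ℝ) * R ^ 2 ≤ 1 / 4) (hl0 : 0 < l) (hl' : l ≤ η) (hl2 : l ≤ 1 / 8)
    (hD : 1 ≤ D) (hT : 0 < T) (hTD : T * D ≤ η * n) (hnl : (n : ℝ) * l ≤ η / 2 * T)
    (hψ : Cut B 1 D ψ) (hχ : Mol l χ) (hg : Nice g) (hgR : ∀ z, g z ≠ 0 → ‖z‖ ≤ R) :
    NN χ (qr m) (So n ψ g) ≤
      ENNReal.ofReal ((1 + ε) * Ar m G n + CC m B * n * (R + n * R ^ 2) * R ^ (1 / m)) *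
        (∫⁻ z, ‖g z‖ₑ ^ (qr m)) ^ (1 / qr m) := by
  obtain ⟨q1, q2, -⟩ := qr_facts m hm
  have hpi := Real.pi_pos
  have hB := cut_B B D ψ hψ
  have hc := hψ.1.continuous
  have hA := Ar_nonneg m G n hG
  have hn0 : (0 : ℝ) ≤ n := Nat.cast_nonneg n
  have m1 : Measurable fun w => kk n ψ w * hat g (iv n w) :=
    (meas_kk n ψ hc).mul ((meas_hat g hg.1).comp (meas_iv n))
  have m2 : Measurable (So n ψ g) := meas_So n ψ hc g hg.1
  have e0 : So n ψ g = fun w => kk n ψ w * hat g (iv n w) + (So n ψ g w - kk n ψ w * hat g (iv n w)) := by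
    funext w
    ring
  have s1 := hl h1 m G n hm hG hP hn ε η hε hav B l T D ψ χ g hl0 hl' hl2 hD hT hTD hnl hψ hχ hg
  have s2 := he h3 m n hm hn R l B D hR hR2 hl2 hnR ψ hψ χ hχ g hg hgR
  have s3 := hoe m hm R hR g hg hgR
  have s0 := mink χ hχ.1 (qr m) q1.le (fun w => kk n ψ w * hat g (iv n w))
    (fun w => So n ψ g w - kk n ψ w * hat g (iv n w)) m1 (m2.sub m1)
  rw [← e0] at s0
  set W : ℝ≥0∞ := (∫⁻ z, ‖g z‖ₑ ^ (qr m)) ^ (1 / qr m) with hW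
  set I : ℝ≥0∞ := (∫⁻ w : ℂ, ENNReal.ofReal ((1 + ‖w‖) ^ (-2 : ℝ)) ^ (qr m)) ^ (1 / qr m) with hI
  have hIfin : I ≠ ∞ := (ENNReal.rpow_lt_top_of_nonneg (by positivity) (Iq_fin m hm).ne).ne
  have s4 : NN χ (qr m) (fun w => So n ψ g w - kk n ψ w * hat g (iv n w)) ≤
      ENNReal.ofReal (CC m B * n * (R + n * R ^ 2) * R ^ (1 / m)) * W := by
    refine s2.trans ?_
    obtain ⟨K, hK⟩ : ∃ K : ℝ, K = 6 * (200 + B) * (n / Real.pi) * (R + n * R ^ 2) := ⟨_, rfl⟩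
    obtain ⟨P, hPd⟩ : ∃ P : ℝ, P = Real.pi ^ (1 / (2 * m)) * R ^ (1 / m) := ⟨_, rfl⟩
    have hK0 : 0 ≤ K := by
      rw [hK]
      positivity
    have hP0 : 0 ≤ P := by
      rw [hPd]
      positivity
    rw [← hK]
    rw [← hPd] at s3
    calc ENNReal.ofReal K * (∫⁻ z, ‖g z‖ₑ) * I
        ≤ ENNReal.ofReal K * (W * ENNReal.ofReal P) * ENNReal.ofReal I.toReal := by
          rw [ENNReal.ofReal_toReal hIfin]
          gcongr
      _ = ENNReal.ofReal (K * P * I.toReal) * W := by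
          rw [ENNReal.ofReal_mul (mul_nonneg hK0 hP0), ENNReal.ofReal_mul hK0]
          ring
      _ ≤ _ := by
          refine mul_le_mul' (ENNReal.ofReal_le_ofReal ?_) le_rfl
          rw [hK, hPd]
          unfold CC
          rw [← hI, abs_of_nonneg hB]
          have h5 : 0 ≤ (n : ℝ) * (R + n * R ^ 2) * R ^ (1 / m) := by positivity
          have h6 : 6 * (200 + B) * (n / Real.pi) * (R + n * R ^ 2) *
            (Real.pi ^ (1 / (2 * m)) * R ^ (1 / m)) * I.toReal =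
            (6 * (200 + B) / Real.pi * I.toReal * Real.pi ^ (1 / (2 * m))) *
              ((n : ℝ) * (R + n * R ^ 2) * R ^ (1 / m)) := by
            ring
          rw [h6]
          nlinarith
  calc NN χ (qr m) (So n ψ g) ≤ _ := s0
    _ ≤ ENNReal.ofReal ((1 + ε) * Ar m G n) * W +
        ENNReal.ofReal (CC m B * n * (R + n * R ^ 2) * R ^ (1 / m)) * W := add_le_add s1 s4
    _ = _ := by
      have := CC_pos m B
      rw [← add_mul, ← ENNReal.ofReal_add (by positivity) (by positivity)]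

theorem t (h1 : R_MZC) : R_CELL := by
  intro m G B hm hG hP
  refine ⟨CC m B, CC_pos m B, fun ε hε => ?_⟩
  obtain ⟨η, hη, hav⟩ := Pool.Agent.N892.BW.AVG.t ε hε
  refine ⟨min (η / 2) (1 / 8), by positivity, ?_⟩
  intro n R l T D ψ χ a g hn hR hR2 hnR hl0 hl' hD hT hTD hnl hψ hχ hg hga
  have hη1 : min (η / 2) (1 / 8) ≤ η / 2 := min_le_left _ _
  have hη2 : min (η / 2) (1 / 8) ≤ 1 / 8 := min_le_right _ _
  have hn0 : (0 : ℝ) ≤ n := Nat.cast_nonneg n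
  -- translation
  have hg' : Nice fun z => g (z + a) := by
    obtain ⟨g1, ⟨M, g2⟩, R', g3⟩ := hg
    refine ⟨g1.comp (measurable_id.add measurable_const), ⟨M, fun x => g2 _⟩, R' + ‖a‖, fun x hx => ?_⟩
    apply g3
    have : ‖x‖ ≤ ‖x + a‖ + ‖a‖ := by
      calc ‖x‖ = ‖(x + a) - a‖ := by rw [add_sub_cancel_right]
        _ ≤ _ := norm_sub_le _ _
    linarith
  have hgR : ∀ z, (fun z => g (z + a)) z ≠ 0 → ‖z‖ ≤ R := by
    intro z hz
    have := hga (z + a) hz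
    rwa [add_sub_cancel_right] at this
  have key := cell0 h1 Pool.Agent.N892.BW.LIN.t m G n hm hG hP hn ε η hε hav B R l T D ψ χ (fun z => g (z + a)) hR hR2 hnR hl0
    (by linarith) (by linarith) hD hT (by nlinarith) (by nlinarith) hψ hχ hg' hgR
  have e1 : ∫⁻ z, ‖g (z + a)‖ₑ ^ (qr m) = ∫⁻ z, ‖g z‖ₑ ^ (qr m) :=
    lintegral_add_right_eq_self (fun z => ‖g z‖ₑ ^ (qr m)) a
  have e2 : ∀ v, So n ψ (fun z => g (z + a)) v = So n ψ g (v + a) := by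
    intro v
    unfold So
    rw [← integral_add_right_eq_self (fun z => kk n ψ (v + a - z) * g z) a]
    refine integral_congr_ae (Eventually.of_forall fun z => ?_)
    simp only
    rw [show v + a - (z + a) = v - z by ring]
  have e3 : NN χ (qr m) (So n ψ fun z => g (z + a)) =
      (∫⁻ w, (∫⁻ y, χ y * ‖So n ψ g (w + y)‖ₑ ^ 2) ^ (qr m / 2)) ^ (1 / qr m) := by
    unfold NN
    rw [← lintegral_add_right_eq_self
      (fun w => (∫⁻ y, χ y * ‖So n ψ g (w + y)‖ₑ ^ 2) ^ (qr m / 2)) a]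
    congr 1
    refine lintegral_congr fun w => ?_
    congr 1
    refine lintegral_congr fun y => ?_
    rw [e2, show w + y + a = w + a + y by ring]
  rw [e1, e3] at key
  exact key

end Pool.Agent.H1PB.CELL
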