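import Mathlib
import Pool.Agent.H78.PB.Stm
import Pool.Agent.N892.BW.BAS
import Pool.Agent.N892.BW.CNV
import Pool.Agent.N892.BW.RDM
import Pool.Agent.N892.BW.HLM
import Pool.Agent.N892.BW.LOW
import Pool.Agent.N892.BW.INR

/-!
Project PB: all interactions are small (real exponent).
-/

set_option autoImplicit false

open MeasureTheory ENNReal Filter Topology Complex
open scoped ComplexConjugate ContDiff

namespace Pool.Agent.H1PB.INR

open Pool.Agent.N892.BW Pool.Agent.H78.PB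
open Pool.Agent.N892.BW.INR (tn_smooth bd_sum avg_le av_meas fi_zero key)

theorem bas : S_BAS := BAS.t

theorem hlm : S_HLM := HLM.t

theorem low : S_LOW := LOW.t BAS.t (CNV.t BAS.t) RDM.t

theorem t (h4 : R_GSM) : R_INR := by
  intro m τ hm hτ hτ1
  have hmR := hm
  obtain ⟨hm', hm3⟩ := hm
  have h1 := bas
  obtain ⟨C1, hC1, hL⟩ := low
  obtain ⟨C3, hC3, hM⟩ := hlm (2 * m) (by linarith)
  obtain ⟨δ, C2, hδ, hC2, hG⟩ := h4 m τ hmR hτ hτ1
  have hC : 0 ≤ C2 * ((16 * C1) ^ (2 * m - 2) * C3 ^ (1 - 1 / m)) := by positivity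
  refine ⟨δ, C2 * ((16 * C1) ^ (2 * m - 2) * C3 ^ (1 - 1 / m)), hδ, hC, ?_⟩
  intro n M a b H hn hS hab
  have hn' : (1 : ℝ) ≤ (n : ℝ) := by exact_mod_cast hn
  have hn0 : (0 : ℝ) < (n : ℝ) := by linarith
  -- measurability
  have hbF : Bd 0 (∑ j ∈ Finset.range M, b j) (Tn n (sm H M)) := by
    refine bd_sum n (Finset.range M) a b H 0 _ ?_
    intro j hj
    have hj' := Finset.mem_range.1 hj
    obtain ⟨h5, h6, h7, -⟩ := hS j hj'
    refine ⟨h5, h7, h5.le, ?_⟩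
    refine Finset.single_le_sum (f := b) (fun i hi => ?_) hj
    rw [Finset.mem_range] at hi
    exact ((hS i hi).1.trans_le (hS i hi).2.1).le
  obtain ⟨F, hF⟩ : ∃ F : ℂ → ℝ≥0∞, F = fun z => ‖Fi (Tn n (sm H M)) z‖ₑ := ⟨_, rfl⟩
  have hFm : Measurable F := by
    rw [hF]
    exact (h1 _ _ hbF).1.measurable.enorm
  obtain ⟨hmx, hmx2⟩ := hM F hFm
  have hvm : ∀ k, k < M → Measurable fun z => ‖Fi (Tn n (H k)) z‖ₑ ^ 2 := by
    intro k hk
    obtain ⟨h5, h6, h7, -⟩ := hS k hk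
    have h8 : Bd 0 (b k) (Tn n (H k)) := by
      refine ⟨tn_smooth n h5 h7, fun ξ hξ => ?_⟩
      have h9 : H k ξ ≠ 0 := by
        intro h0
        apply hξ
        simp only [Tn, h0, mul_zero]
      exact ⟨norm_nonneg _, (h7.2 ξ h9).2⟩
    exact ((h1 _ _ h8).1.measurable.enorm).pow_const 2
  obtain ⟨W, hW⟩ : ∃ W : ℂ → ℝ≥0∞, W = fun x => (ENNReal.ofReal (16 * C1) * mx F x) ^ (2 * m - 2) :=
    ⟨_, rfl⟩
  have hWm : Measurable W := by
    rw [hW]
    exact (hmx.const_mul _).pow_const _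
  obtain ⟨A, hA⟩ : ∃ A : ℕ → ℂ → ℝ≥0∞, A = fun k =>
      av ((n : ℝ) ^ (τ / 2) / a k) (fun z => ‖Fi (Tn n (H k)) z‖ₑ ^ 2) := ⟨_, rfl⟩
  have hAm : ∀ k, k < M → Measurable (A k) := by
    intro k hk
    rw [hA]
    exact av_meas (hvm k hk)
  -- each term
  have hterm : ∀ k ∈ Finset.range M,
      (∫⁻ x, ‖Fi (Tn n (H k)) x‖ₑ ^ 2 * ‖Fi (Tn n (sm H k)) x‖ₑ ^ (2 * m - 2)) ≤
        ∫⁻ x, A k x * W x := by
    intro k hk
    rw [Finset.mem_range] at hk
    cases k with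
    | zero =>
      have h5 : ∀ x, ‖Fi (Tn n (H 0)) x‖ₑ ^ 2 * ‖Fi (Tn n (sm H 0)) x‖ₑ ^ (2 * m - 2) = 0 := by
        intro x
        rw [fi_zero, enorm_zero, ENNReal.zero_rpow_of_pos (by linarith), mul_zero]
      simp only [h5, lintegral_zero]
      exact bot_le
    | succ k =>
      have hak : 0 < a (k + 1) := (hS (k + 1) hk).1
      rw [hA]
      refine avg_le (f := fun z => ‖Fi (Tn n (H (k + 1))) z‖ₑ ^ 2)
        (g := fun z => ‖Fi (Tn n (sm H (k + 1))) z‖ₑ ^ (2 * m - 2)) (by positivity) (hvm _ hk) hWm ?_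
      intro x y hy
      have h6 := key (m := 3) (by norm_num) hτ hn hC1 hL hS hab hk x y hy
      rw [← hF] at h6
      rw [hW]
      exact ENNReal.rpow_le_rpow h6 (by linarith)
  have hcj : m.HolderConjugate (m / (m - 1)) :=
    Real.HolderConjugate.conjExponent (by linarith)
  have hSm : Measurable fun x => ∑ k ∈ Finset.range M, A k x :=
    Finset.measurable_sum _ fun k hk => hAm k (Finset.mem_range.1 hk)
  have hstep : (∑ k ∈ Finset.range M,
      (∫⁻ x, ‖Fi (Tn n (H k)) x‖ₑ ^ 2 * ‖Fi (Tn n (sm H k)) x‖ₑ ^ (2 * m - 2))) ≤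
      (∫⁻ x, (∑ k ∈ Finset.range M, A k x) ^ m) ^ (1 / m) *
        (∫⁻ x, W x ^ (m / (m - 1))) ^ (1 / (m / (m - 1))) := by
    refine (Finset.sum_le_sum hterm).trans ?_
    have hmul : ∀ k ∈ Finset.range M, Measurable fun x => A k x * W x :=
      fun k hk => (hAm k (Finset.mem_range.1 hk)).mul hWm
    rw [← lintegral_finsetSum _ hmul]
    have h7 : (fun x => ∑ k ∈ Finset.range M, A k x * W x) =
        fun x => ((fun x => ∑ k ∈ Finset.range M, A k x) * W) x := by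
      funext x
      rw [Pi.mul_apply, Finset.sum_mul]
    rw [h7]
    exact ENNReal.lintegral_mul_le_Lp_mul_Lq _ hcj hSm.aemeasurable hWm.aemeasurable
  refine hstep.trans ?_
  -- first factor
  have hX : 0 ≤ C2 * (n : ℝ) ^ (2 * (1 - 1 / m) - δ) := by positivity
  have hfirst : (∫⁻ x, (∑ k ∈ Finset.range M, A k x) ^ m) ^ (1 / m) ≤
      ENNReal.ofReal (C2 * (n : ℝ) ^ (2 * (1 - 1 / m) - δ)) * (Sr m M H) ^ (1 / m) := by
    have h8 := hG n M a b H hn fun k hk =>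
      ⟨(hS k hk).1, (hS k hk).2.1, (hab k hk).1, (hS k hk).2.2.1⟩
    have h9 : (∫⁻ x, (∑ k ∈ Finset.range M, A k x) ^ m) =
        ∫⁻ x, (∑ k ∈ Finset.range M, av ((n : ℝ) ^ (τ / 2) / a k)
          (fun z => ‖Fi (Tn n (H k)) z‖ₑ ^ 2) x) ^ m := by
      rw [hA]
    rw [h9]
    calc _ ≤ (ENNReal.ofReal ((C2 * (n : ℝ) ^ (2 * (1 - 1 / m) - δ)) ^ m) * Sr m M H) ^
          (1 / m) := ENNReal.rpow_le_rpow h8 (by positivity)
      _ = _ := by
        rw [ENNReal.mul_rpow_of_nonneg _ _ (by positivity), ← ENNReal.ofReal_rpow_of_nonneg hX (by linarith),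
          ← ENNReal.rpow_mul, mul_one_div_cancel (by linarith), ENNReal.rpow_one]
  -- second factor
  have hq1 : 1 / (m / (m - 1)) = 1 - 1 / m := by
    have : m ≠ 0 := by linarith
    field_simp
  have hm1 : (0 : ℝ) ≤ 1 - 1 / m := by
    have : 1 / m ≤ 1 := by
      rw [div_le_one (by linarith)]
      linarith
    linarith
  have hsecond : (∫⁻ x, W x ^ (m / (m - 1))) ^ (1 / (m / (m - 1))) ≤
      ENNReal.ofReal ((16 * C1) ^ (2 * m - 2) * C3 ^ (1 - 1 / m)) *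
        (Nr m (Fi (Tn n (sm H M)))) ^ (1 - 1 / m) := by
    have h10 : ∀ x, W x ^ (m / (m - 1)) =
        (ENNReal.ofReal (16 * C1)) ^ (2 * m) * mx F x ^ (2 * m) := by
      intro x
      rw [hW]
      simp only
      rw [← ENNReal.rpow_mul]
      have h11 : (2 * m - 2) * (m / (m - 1)) = 2 * m := by
        have : m - 1 ≠ 0 := by linarith
        field_simp
      rw [h11, ENNReal.mul_rpow_of_nonneg _ _ (by positivity)]
    have h12 : ∫⁻ x, W x ^ (m / (m - 1)) ≤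
        (ENNReal.ofReal (16 * C1)) ^ (2 * m) *
          (ENNReal.ofReal C3 * Nr m (Fi (Tn n (sm H M)))) := by
      simp only [h10]
      rw [lintegral_const_mul' _ _ (ENNReal.rpow_ne_top_of_nonneg (by positivity) ENNReal.ofReal_ne_top)]
      refine mul_le_mul_right (hmx2.trans (le_of_eq ?_)) _
      congr 1
      rw [Nr, hF]
    rw [hq1]
    calc _ ≤ ((ENNReal.ofReal (16 * C1)) ^ (2 * m) *
          (ENNReal.ofReal C3 * Nr m (Fi (Tn n (sm H M))))) ^ (1 - 1 / m) :=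
          ENNReal.rpow_le_rpow h12 hm1
      _ = _ := by
        have h13 : 2 * m * (1 - 1 / m) = 2 * m - 2 := by
          have : m ≠ 0 := by linarith
          field_simp
        have h15 : ENNReal.ofReal ((16 * C1) ^ (2 * m - 2) * C3 ^ (1 - 1 / m)) =
            ENNReal.ofReal (16 * C1) ^ (2 * m * (1 - 1 / m)) *
              ENNReal.ofReal C3 ^ (1 - 1 / m) := by
          rw [h13, ENNReal.ofReal_rpow_of_nonneg hC3 hm1,
            ENNReal.ofReal_rpow_of_nonneg (by positivity) (by linarith),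
            ← ENNReal.ofReal_mul (by positivity)]
        rw [h15, ENNReal.mul_rpow_of_nonneg _ _ hm1, ENNReal.mul_rpow_of_nonneg _ _ hm1,
          ← ENNReal.rpow_mul, ← mul_assoc]
  calc _ ≤ (ENNReal.ofReal (C2 * (n : ℝ) ^ (2 * (1 - 1 / m) - δ)) * (Sr m M H) ^ (1 / m)) *
        (ENNReal.ofReal ((16 * C1) ^ (2 * m - 2) * C3 ^ (1 - 1 / m)) *
        (Nr m (Fi (Tn n (sm H M)))) ^ (1 - 1 / m)) := mul_le_mul' hfirst hsecond
    _ = _ := by
      have h14 : ENNReal.ofReal (C2 * ((16 * C1) ^ (2 * m - 2) * C3 ^ (1 - 1 / m)) *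
          (n : ℝ) ^ (2 * (1 - 1 / m) - δ)) =
          ENNReal.ofReal (C2 * (n : ℝ) ^ (2 * (1 - 1 / m) - δ)) *
            ENNReal.ofReal ((16 * C1) ^ (2 * m - 2) * C3 ^ (1 - 1 / m)) := by
        rw [← ENNReal.ofReal_mul hX]
        congr 1
        ring
      rw [h14]
      ring

end Pool.Agent.H1PB.INR
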